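import Mathlib
import Pool.Agent.helper11.OFP.Spec

set_option autoImplicit false

/-!
# Project ofp (MP_90e158_lc), row ofp:NSM (`E_lo(F)` is not smooth on `W`)
-/

open MeasureTheory

namespace Pool.Agent.OFP

open Pool.Agent.LOF MeasureTheory

theorem NSM_q : ∃ q : ℕ → ℝ, DenseSeq q := by
  have hinf : (Set.Ioo (0 : ℚ) 1).Infinite := Set.Ioo_infinite (by norm_num)
  have : Infinite (Set.Ioo (0 : ℚ) 1) := hinf.to_subtype
  obtain ⟨e⟩ := nonempty_equiv_of_countable (α := ℕ) (β := Set.Ioo (0 : ℚ) 1)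
  refine ⟨fun n => ((e n : ℚ) : ℝ), fun n => ⟨?_, ?_⟩, ?_, ?_⟩
  · show (0 : ℝ) < ((e n : ℚ) : ℝ)
    exact_mod_cast (e n).2.1
  · show ((e n : ℚ) : ℝ) < 1
    exact_mod_cast (e n).2.2
  · intro m n h
    have h1 : ((e m : ℚ) : ℝ) = ((e n : ℚ) : ℝ) := h
    exact e.injective (Subtype.ext (by exact_mod_cast h1))
  · intro a b ha hab hb
    obtain ⟨r, hr1, hr2⟩ := exists_rat_btwn hab
    have h0 : (0 : ℝ) < r := lt_of_le_of_lt ha hr1
    have h1 : (r : ℝ) < 1 := lt_of_lt_of_le hr2 hb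
    refine ⟨e.symm ⟨r, by exact_mod_cast h0, by exact_mod_cast h1⟩, ?_⟩
    simp only [Equiv.apply_symm_apply]
    exact ⟨hr1, hr2⟩

theorem NSM_img (x : ℕ → ℝ) (hx : DenseSeq x) (g : F) : DenseSeq (fun n => g.1 (x n)) := by
  have g0 : g.1 0 = 0 := F.out g.2 (by simp)
  have g1 : g.1 1 = 1 := F.out g.2 (by simp)
  refine ⟨fun n => ⟨?_, ?_⟩, ?_, ?_⟩
  · have h := g.1.strictMono (hx.1 n).1
    rwa [g0] at h
  · have h := g.1.strictMono (hx.1 n).2
    rwa [g1] at h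
  · intro m n h
    exact hx.2.1 (g.1.injective h)
  · intro a b ha hab hb
    have s0 : g.1.symm 0 = 0 := by rw [OrderIso.symm_apply_eq, g0]
    have s1 : g.1.symm 1 = 1 := by rw [OrderIso.symm_apply_eq, g1]
    have ha' : 0 ≤ g.1.symm a := by
      rw [← s0]; exact g.1.symm.monotone ha
    have hb' : g.1.symm b ≤ 1 := by
      rw [← s1]; exact g.1.symm.monotone hb
    obtain ⟨n, h1, h2⟩ := hx.2.2 (g.1.symm a) (g.1.symm b) ha' (g.1.symm.strictMono hab) hb'
    refine ⟨n, ?_, ?_⟩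
    · have h := g.1.strictMono h1
      rwa [OrderIso.apply_symm_apply] at h
    · have h := g.1.strictMono h2
      rwa [OrderIso.apply_symm_apply] at h

theorem NSM_uniq (r r' : LO F) (x : ℕ → ℝ) (s : ℕ → Bool) (h : IsLex r x s)
    (h' : IsLex r' x s) : r = r' := by
  apply Subtype.ext
  funext p
  rw [Bool.eq_iff_iff]
  exact (h p.1 p.2).trans (h' p.1 p.2).symm

theorem NSM (hLXO : LXO_stmt) (hLXW : LXW_stmt) (hLIN : LIN_stmt) (hLCJ : LCJ_stmt)
    (hXSD : XSD_stmt) (hXSF : XSF_stmt) (hXCI : XCI_stmt) (hXMS : XMS_stmt) (hERG : ERG_stmt)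
    (hNAT : NAT_stmt) : NSM_stmt := by
  rintro ⟨f, hf, hfW⟩
  obtain ⟨q, hq⟩ := NSM_q
  obtain ⟨s, hs⟩ : ∃ s : ℕ → Bool, s = fun _ => true := ⟨_, rfl⟩
  have hex : ∀ c : ℕ → Bool, ∃ r : LO F, IsLex r (seq q c) s := fun c =>
    hLXO (seq q c) s (hXSD q c hq)
  choose Φ hΦ using hex
  have hW : ∀ c, Φ c ∈ W := fun c => hLXW (Φ c) (seq q c) s (hXSD q c hq) (hΦ c)
  have hm : Measurable Φ := hXMS q s Φ hq hΦ
  have hinv : ∀ c N, f (Φ (Function.update c N (!c N))) = f (Φ c) := by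
    intro c N
    obtain ⟨g, hg⟩ := hXSF q c N hq
    have h1 : IsLex (conj g (Φ c)) (fun n => g.1 (seq q c n)) s := hLCJ (Φ c) (seq q c) s g (hΦ c)
    have h2 : (fun n => g.1 (seq q c n)) = seq q (Function.update c N (!c N)) := funext hg
    rw [h2] at h1
    have h3 : Φ (Function.update c N (!c N)) = conj g (Φ c) := NSM_uniq _ _ _ s (hΦ _) h1
    exact ((hfW (Φ c) (hW c) (Φ (Function.update c N (!c N))) (hW _)).1 ⟨g, h3⟩).symm
  obtain ⟨a, ha⟩ := hERG (fun c => f (Φ c)) (hf.comp hm) hinv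
  have hcount : {c : ℕ → Bool | f (Φ c) = a}.Countable := by
    rcases Set.eq_empty_or_nonempty {c : ℕ → Bool | f (Φ c) = a} with h0 | ⟨c₀, hc₀⟩
    · rw [h0]
      exact Set.countable_empty
    · have h1 : ∀ c ∈ {c : ℕ → Bool | f (Φ c) = a}, ∃ g : F,
          seq q c = fun n => g.1 (seq q c₀ n) := by
        intro c hc
        have h2 : f (Φ c₀) = f (Φ c) := by
          rw [show f (Φ c₀) = a from hc₀, show f (Φ c) = a from hc]
        obtain ⟨g, hg⟩ := (hfW (Φ c₀) (hW c₀) (Φ c) (hW c)).2 h2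
        refine ⟨g, ?_⟩
        have h3 : IsLex (conj g (Φ c₀)) (fun n => g.1 (seq q c₀ n)) s :=
          hLCJ (Φ c₀) (seq q c₀) s g (hΦ c₀)
        rw [← hg] at h3
        exact hLIN (Φ c) (seq q c) (fun n => g.1 (seq q c₀ n)) s (hXSD q c hq)
          (NSM_img _ (hXSD q c₀ hq) g) (hΦ c) h3
      have h4 : {c : ℕ → Bool | f (Φ c) = a} ⊆
          seq q ⁻¹' (Set.range fun g : F => fun n => g.1 (seq q c₀ n)) := by
        intro c hc
        obtain ⟨g, hg⟩ := h1 c hc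
        exact ⟨g, hg.symm⟩
      exact ((Set.countable_range _).preimage (hXCI q hq)).mono h4
  have h5 : fair {c : ℕ → Bool | f (Φ c) = a} = 0 := hNAT _ hcount
  have h6 : fair Set.univ ≤ 0 := by
    calc fair Set.univ ≤ fair ({c | f (Φ c) ≠ a} ∪ {c | f (Φ c) = a}) := by
          apply measure_mono
          intro c _
          by_cases h : f (Φ c) = a
          · exact Or.inr h
          · exact Or.inl h
      _ ≤ fair {c | f (Φ c) ≠ a} + fair {c | f (Φ c) = a} := measure_union_le _ _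
      _ = 0 := by rw [ha, h5, add_zero]
  have : IsProbabilityMeasure fair := by unfold fair; infer_instance
  rw [measure_univ] at h6
  exact absurd h6 (by norm_num)

end Pool.Agent.OFP
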